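import Pool.Agent.Helper65_LSH.LCP

/-!
MP_1906c1_mp, table lsh, row LCS: decay at most at the rate `√k`.
-/

set_option autoImplicit false

noncomputable section

namespace Pool.Agent.LE.H28Z

open Pool.Agent.Anderson Pool.Agent.Loc Pool.Agent.LE Pool.Agent.LE.H65Z

/-- the cube condition for a cube inside -/
theorem ls_sub {d : ℕ} {ω h : Site d → ℝ} {ε k : ℝ} {b p : Site d} {r R : ℕ}
    (hsub : Pool.Agent.Loc.box p r ⊆ Pool.Agent.Loc.box b R)
    (hsub1 : Pool.Agent.Loc.box p (r + 1) ⊆ Pool.Agent.Loc.box b (R + 1))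
    (hL : LS ω h ε k b R) : LS ω h ε k p r :=
  ⟨fun x hx => hL.1 x (hsub1 hx), fun x hx => hL.2 x (hsub hx)⟩

theorem bx_shift {d : ℕ} (b : Site d) (i : Fin d) (j r R : ℕ) (h : j + r ≤ R) :
    Pool.Agent.Loc.box (b + Pi.single i (j : ℤ)) r ⊆ Pool.Agent.Loc.box b R := by
  intro x hx
  rw [mem_bx] at hx ⊢
  intro l
  have h1 := hx l
  have h2 : ((j : ℤ) + r) ≤ R := by exact_mod_cast h
  have hj : (0 : ℤ) ≤ j := Int.natCast_nonneg j
  have h3 : 0 ≤ (Pi.single i (j : ℤ) : Site d) l ∧ (Pi.single i (j : ℤ) : Site d) l ≤ j := by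
    by_cases hl : l = i
    · subst hl; simp
    · simp [Pi.single_eq_of_ne hl]
  rw [Pi.add_apply] at h1
  exact ⟨by linarith [h1.1, h3.1], by linarith [h1.2, h3.2]⟩

/-- the mean over the shifted cube -/
theorem av_shift {d : ℕ} (h : Site d → ℝ) (p e : Site d) (s : ℕ) :
    av h (p + e) s = (∑ x ∈ Pool.Agent.Loc.box p s, h (x + e)) / (2 * (s : ℝ) + 1) ^ d := by
  unfold av
  congr 1
  refine (Finset.sum_bij (fun x _ => x + e) ?_ ?_ ?_ ?_).symm
  · intro x hx
    rw [mem_bx] at hx ⊢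
    intro l
    have := hx l
    rw [Pi.add_apply, Pi.add_apply]
    exact ⟨by linarith [this.1], by linarith [this.2]⟩
  · intro x _ y _ hxy
    exact add_right_cancel hxy
  · intro y hy
    refine ⟨y - e, ?_, sub_add_cancel y e⟩
    rw [mem_bx] at hy ⊢
    intro l
    have := hy l
    rw [Pi.add_apply] at this
    rw [Pi.sub_apply]
    exact ⟨by linarith [this.1], by linarith [this.2]⟩
  · intro x _; rfl

theorem final_step {a b c d Y Z : ℝ} (h1 : |a - b| ≤ Z) (h2 : |b - c| ≤ Y) (h3 : |d - c| ≤ Z) :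
    |a - d| ≤ Y + 2 * Z := by
  rw [abs_le] at h1 h2 h3 ⊢
  constructor <;> linarith [h1.1, h1.2, h2.1, h2.2, h3.1, h3.2]

/-- **Row LCS.** -/
theorem lcs (slc : SlcStmt) (lcp : LcpStmt) : LcsStmt := by
  intro d hd
  obtain ⟨C, hC1, hC⟩ := slc d hd
  obtain ⟨C', hC'1, hC'⟩ := lcp d hd
  refine ⟨C, hC1, ?_⟩
  intro ε hε hε1
  have hε2 : 0 < ε ^ 2 := by positivity
  have hinv : 1 ≤ 1 / ε ^ 2 := by
    rw [le_div_iff₀ hε2]; nlinarith
  refine ⟨2 * C' * (1 + 4 / ε ^ 2), ?_, ?_⟩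
  · have h1 : 0 ≤ 4 / ε ^ 2 := by positivity
    nlinarith
  intro ω h k b n R i hk hk1 hR hL
  set q := Real.sqrt k with hq
  have hq0 : 0 < q := Real.sqrt_pos.mpr hk
  have hq1 : q ≤ 1 := by rw [hq]; exact Real.sqrt_le_one.mpr hk1
  have hqk : q ^ 2 = k := Real.sq_sqrt hk.le
  obtain ⟨s, hs⟩ : ∃ s : ℕ, s = ⌈1 / (ε ^ 2 * q)⌉₊ := ⟨_, rfl⟩
  have hA : 1 ≤ 1 / (ε ^ 2 * q) := by
    rw [le_div_iff₀ (by positivity)]
    nlinarith
  have hs1 : 1 / (ε ^ 2 * q) ≤ s := by rw [hs]; exact Nat.le_ceil _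
  have hs2 : (s : ℝ) ≤ 2 / (ε ^ 2 * q) := by
    have h1 : (s : ℝ) < 1 / (ε ^ 2 * q) + 1 := by
      rw [hs]; exact Nat.ceil_lt_add_one (by positivity)
    have h2 : 2 / (ε ^ 2 * q) = 1 / (ε ^ 2 * q) + 1 / (ε ^ 2 * q) := by ring
    linarith
  have hs0 : (1 : ℝ) ≤ s := hA.trans hs1
  have hsN : 1 ≤ s := by exact_mod_cast hs0
  have h4s : 4 * s ≤ R := by
    have h1 : (4 * s : ℝ) ≤ R := by
      refine le_trans ?_ hR
      have h2 : 4 * (s : ℝ) ≤ 4 * (2 / (ε ^ 2 * q)) := by linarith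
      refine h2.trans ?_
      rw [le_div_iff₀ hq0]
      have h3 : 4 * (2 / (ε ^ 2 * q)) * q = 8 / ε ^ 2 := by field_simp; ring
      rw [h3]
      have h4 : 0 < 4 / ε ^ 2 := by positivity
      have h5 : 8 / ε ^ 2 = 2 * (4 / ε ^ 2) := by ring
      rw [h5]
      nlinarith
    exact_mod_cast h1
  have hεs : 1 / ε ^ 2 ≤ q * s := by
    have h1 : 1 / ε ^ 2 = q * (1 / (ε ^ 2 * q)) := by field_simp
    rw [h1]
    exact mul_le_mul_of_nonneg_left hs1 hq0.le
  have hLp : ∀ j : ℕ, j ≤ n → LS ω h ε k (b + Pi.single i (j : ℤ)) (4 * s) := by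
    intro j hj
    exact ls_sub (bx_shift b i j _ _ (by omega)) (bx_shift b i j _ _ (by omega)) hL
  have hCε : 0 ≤ C * ε := by nlinarith
  -- one step
  have step : ∀ j : ℕ, j < n →
      |av h (b + Pi.single i ((j + 1 : ℕ) : ℤ)) s - av h (b + Pi.single i (j : ℤ)) s| ≤
        (1 + C * ε) * q := by
    intro j hj
    set p := b + Pi.single i (j : ℤ) with hp
    have hp1 : b + Pi.single i ((j + 1 : ℕ) : ℤ) = p + Pi.single i 1 := by
      rw [hp, add_assoc, ← Pi.single_add]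
      push_cast
      rfl
    rw [hp1, av_shift]
    unfold av
    rw [← sub_div, ← Finset.sum_sub_distrib]
    set N : ℝ := (2 * (s : ℝ) + 1) ^ d with hN
    have hN0 : 0 < N := by positivity
    have e1 := hC ω h ε k p s i hε hε1 hk hk1 hεs (hLp j hj.le)
    have e2 := sq_sum_le_card_mul_sum_sq (s := Pool.Agent.Loc.box p s)
      (f := fun x => h (x + Pi.single i 1) - h x)
    rw [cardb, ← hN] at e2
    have e3 : (∑ x ∈ Pool.Agent.Loc.box p s, (h (x + Pi.single i 1) - h x)) ^ 2 ≤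
        ((1 + C * ε) * q * N) ^ 2 := by
      refine e2.trans ?_
      calc N * ∑ x ∈ Pool.Agent.Loc.box p s, (h (x + Pi.single i 1) - h x) ^ 2
          ≤ N * ((1 + C * ε) * k * N) := mul_le_mul_of_nonneg_left e1 hN0.le
        _ = (1 + C * ε) * k * N ^ 2 := by ring
        _ ≤ (1 + C * ε) ^ 2 * k * N ^ 2 := by
            have h1 : 1 + C * ε ≤ (1 + C * ε) ^ 2 := by nlinarith
            exact mul_le_mul_of_nonneg_right (mul_le_mul_of_nonneg_right h1 hk.le) (by positivity)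
        _ = ((1 + C * ε) * q * N) ^ 2 := by rw [mul_pow, mul_pow, hqk]
    have e4 := abs_le_of_sq_le_sq e3 (by positivity)
    have e5 : |∑ x ∈ Pool.Agent.Loc.box p s, (h (x + Pi.single i 1) - h x)| ≤
        (1 + C * ε) * q * N := e4
    rw [abs_div, abs_of_pos hN0, div_le_iff₀ hN0]
    exact e5
  have hsum : ∀ j : ℕ, j ≤ n →
      |av h (b + Pi.single i (j : ℤ)) s - av h b s| ≤ (1 + C * ε) * q * j := by
    intro j
    induction j with
    | zero => intro _; simp
    | succ j ih =>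
      intro hj
      have h1 := ih (by omega)
      have h2 := step j (by omega)
      have h3 : av h (b + Pi.single i ((j + 1 : ℕ) : ℤ)) s - av h b s =
          (av h (b + Pi.single i ((j + 1 : ℕ) : ℤ)) s - av h (b + Pi.single i (j : ℤ)) s) +
          (av h (b + Pi.single i (j : ℤ)) s - av h b s) := by ring
      rw [h3]
      refine (abs_add_le _ _).trans ?_
      push_cast at h1 h2 ⊢
      linarith
  -- the two ends
  have hend : ∀ p : Site d, LS ω h ε k p (4 * s) → |h p - av h p s| ≤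
      C' * (1 + 4 / ε ^ 2) * (1 + Real.log (1 / k)) := by
    intro p hLp'
    have h1 := hC' ω h ε k p s hε.le hε1 hk.le hsN hLp'
    refine h1.trans ?_
    rw [mul_assoc]
    refine mul_le_mul_of_nonneg_left ?_ (by linarith)
    have h2 : Real.log s ≤ 2 / ε ^ 2 + Real.log (1 / k) / 2 := by
      have h3 : Real.log s ≤ Real.log (2 / (ε ^ 2 * q)) := Real.log_le_log (by linarith) hs2
      have h4 : (2 : ℝ) / (ε ^ 2 * q) = (2 / ε ^ 2) * (1 / q) := by field_simp
      have h5 : Real.log (2 / (ε ^ 2 * q)) = Real.log (2 / ε ^ 2) + Real.log (1 / q) := by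
        rw [h4, Real.log_mul (by positivity) (by positivity)]
      have h6 : Real.log (2 / ε ^ 2) ≤ 2 / ε ^ 2 := by
        have := Real.log_le_sub_one_of_pos (show 0 < 2 / ε ^ 2 by positivity)
        linarith
      have h7 : Real.log (1 / q) = Real.log (1 / k) / 2 := by
        rw [← hqk, one_div, one_div, Real.log_inv, Real.log_inv, Real.log_pow]
        push_cast
        ring
      rw [h5, h7] at h3
      linarith
    have h8 : q * s ≤ 2 / ε ^ 2 := by
      have h9 : q * (s : ℝ) ≤ q * (2 / (ε ^ 2 * q)) := mul_le_mul_of_nonneg_left hs2 hq0.le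
      have h10 : q * (2 / (ε ^ 2 * q)) = 2 / ε ^ 2 := by field_simp
      linarith
    have h11 : 0 ≤ Real.log (1 / k) := by
      apply Real.log_nonneg
      rw [le_div_iff₀ hk]; linarith
    have h12 : 0 < 4 / ε ^ 2 := by positivity
    have h13 : 4 / ε ^ 2 = 2 / ε ^ 2 + 2 / ε ^ 2 := by ring
    have h14 : 0 ≤ 4 / ε ^ 2 * Real.log (1 / k) := by positivity
    nlinarith
  have hL0 := hLp 0 (Nat.zero_le _)
  have e0 : b + Pi.single i ((0 : ℕ) : ℤ) = b := by simp
  rw [e0] at hL0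
  have h0 := hend _ hL0
  have hn := hend _ (hLp n le_rfl)
  have hs3 := hsum n le_rfl
  have e2 := final_step hn hs3 h0
  refine e2.trans (le_of_eq ?_)
  ring

end Pool.Agent.LE.H28Z
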